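import Pool.Agent.U515.KE.Hull

/-!
# An entropy bound for the Komlós problem

Let `v_1, …, v_n` be vectors in the Euclidean unit ball of `ℝ^d`. For `ρ > 0` let `N(ρ)` be the largest
number of indices `a` for which all the distances `‖v_a - v_b‖` and `‖v_a + v_b‖` are greater
than `ρ`. The best known bound for the value of a signing is `C (1 + log (1 + min n d))^{1/4}`.

(1) Every point of the cube `[-1,1]^n` (for example `0`) can be rounded to a vertex such that all
coordinates of the sum change by at most `C S`, where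
`S = ∑_j 2^{-j} (1 + log (1 + min (N(2^{-j}), n, d)))^{1/4}`, with an absolute constant `C`.

(2) Let `s > 0` and `1 + log (1 + N(ρ)) ≤ A ρ^{-1/s}` for all `0 < ρ ≤ 1`. Then the bound is
`C_s A^{1/4}` if `s > 1/4`, it is `C A^{1/4} (1 + log (1 + log (1 + min n d)))` if `s = 1/4` and
`C_s A^s (1 + log (1 + min n d))^{1/4 - s}` if `s < 1/4`.

(3) In particular let `u_0, u_1, …` be any sequence of vectors of the unit ball, and let the `v_i` lie in
the absolutely convex hull of the vectors `u_l / (1 + log (1 + l))^s`. Then the bound is `C_s` if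
`s > 1/4`, `C (1 + log (1 + log (1 + min n d)))` if `s = 1/4` and
`C_s (1 + log (1 + min n d))^{1/4 - s}` if `0 < s < 1/4`.

Proof of (1): at the scale `ρ` all vectors but `N(ρ)` of them can be grouped into pairs `a, b` with
`‖v_a - σ v_b‖ ≤ ρ`, `σ = ±1`. The signs of the pairs are chosen by the bound
`(1 + log (1 + n))^{1/4}` for the differences; the remaining vectors are treated at the scale `2 ρ`, and so
on. This holds for all subfamilies, so binary digits give arbitrary starting points, and points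
with at most `d` fractional coordinates suffice. Proof of (3): the numbers `N(ρ)` of the hull are
estimated by unbiased rounding of the coefficients to multiples of `ρ^2 / 64` times
`(1 + log (1 + l))^s`, and by counting the integer points with `∑ (1 + log (1 + l)) |z_l| ≤ W`.
-/

namespace Pool.Agent.Results.MP_c81d26_co.EntropyIntegral

open Finset Pool.Agent.U515.KE

/-- `1`, `1 + log (1 + log (1 + D))` or `(1 + log (1 + D))^{1/4 - s}` for `s > 1/4`, `s = 1/4`,
`s < 1/4`. -/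
noncomputable def rate (s : ℝ) (D : ℕ) : ℝ :=
  if 1 / 4 < s then 1 else if s = 1 / 4 then 1 + Real.log (1 + Real.log (1 + (D : ℝ)))
  else (1 + Real.log (1 + (D : ℝ))) ^ (1 / 4 - s)

theorem mono {n d : ℕ} {v : Fin n → EuclideanSpace ℝ (Fin d)} {R R' : ℝ} (h : R ≤ R')
    (hR : RoundsWithin v R) : RoundsWithin v R' := by
  intro x₀ hx
  obtain ⟨x, h1, h2, h3⟩ := hR x₀ hx
  exact ⟨x, h1, h2, fun k => (h3 k).trans h⟩

theorem part2 (s : ℝ) (hs : 0 < s) : ∃ C : ℝ, 0 < C ∧
    ∀ (n d : ℕ) (v : Fin n → EuclideanSpace ℝ (Fin d)) (A : ℝ), (∀ i, ‖v i‖ ≤ 1) →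
      (∀ ρ : ℝ, 0 < ρ → ρ ≤ 1 → ∃ N : ℕ, PackLE v ρ N ∧
        1 + Real.log (1 + (N : ℝ)) ≤ A * ρ ^ (-(1 / s))) →
      RoundsWithin v (C * (A ^ min s (1 / 4) * rate s (min n d))) := by
  have hK : (0:ℝ) < K0 := by norm_num [K0]
  rcases lt_trichotomy s (1 / 4) with h | h | h
  · have hα : 4 < 1 / s := by rw [lt_div_iff₀ hs]; linarith
    have h1 : (2:ℝ) ^ (-(1 / s / 4 - 1)) < 1 := by
      apply Real.rpow_lt_one_of_one_lt_of_neg (by norm_num)
      linarith
    refine ⟨6 * K0 * (1 / (1 - (2:ℝ) ^ (-(1 / s / 4 - 1))) + 2), ?_, ?_⟩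
    · have : 0 < 1 - (2:ℝ) ^ (-(1 / s / 4 - 1)) := by linarith
      positivity
    · intro n d v A hv hA
      have h2 := case_gt v hv A (1 / s) hA hα
      have e1 : min s (1 / 4) = s := min_eq_left h.le
      have e2 : rate s (min n d) = (1 + Real.log (1 + ((min n d : ℕ) : ℝ))) ^ (1 / 4 - s) := by
        unfold rate
        rw [if_neg (by linarith), if_neg h.ne]
      rw [e1, e2]
      rw [one_div_one_div] at h2
      exact h2
  · subst h
    refine ⟨18 * K0, by positivity, ?_⟩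
    intro n d v A hv hA
    have h2 := case_eq v hv A (fun ρ h1 h2 => by
      obtain ⟨N, hN, hN2⟩ := hA ρ h1 h2
      refine ⟨N, hN, ?_⟩
      have : (1 / (1 / 4) : ℝ) = 4 := by norm_num
      rwa [this] at hN2)
    have e2 : rate (1 / 4) (min n d) =
        1 + Real.log (1 + Real.log (1 + ((min n d : ℕ) : ℝ))) := by
      unfold rate
      rw [if_neg (lt_irrefl _), if_pos rfl]
    rw [min_self, e2]
    exact h2
  · have hα : 1 / s < 4 := by rw [div_lt_iff₀ hs]; linarith
    have h1 : (2:ℝ) ^ (1 / s / 4 - 1) < 1 := by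
      apply Real.rpow_lt_one_of_one_lt_of_neg (by norm_num)
      linarith
    refine ⟨6 * K0 * (1 / (1 - (2:ℝ) ^ (1 / s / 4 - 1))), ?_, ?_⟩
    · have : 0 < 1 - (2:ℝ) ^ (1 / s / 4 - 1) := by linarith
      positivity
    · intro n d v A hv hA
      have h2 := case_lt v hv A (1 / s) hA hα
      have e1 : min s (1 / 4) = 1 / 4 := min_eq_right h.le
      have e2 : rate s (min n d) = 1 := by
        unfold rate
        rw [if_pos h]
      rw [e1, e2, mul_one]
      exact h2

theorem part3 (s : ℝ) (hs : 0 < s) : ∃ C : ℝ, 0 < C ∧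
    ∀ (n d K : ℕ) (u : Fin K → EuclideanSpace ℝ (Fin d)) (c : Fin n → Fin K → ℝ),
      (∀ l, ‖u l‖ ≤ 1) → (∀ i, ∑ l : Fin K, |c i l| * (1 + Real.log (1 + (l : ℝ))) ^ s ≤ 1) →
      RoundsWithin (fun i => ∑ l, c i l • u l) (C * rate s (min n d)) := by
  -- exponents below one half
  have key : ∀ t : ℝ, 0 < t → t < 1 / 2 → ∃ C : ℝ, 0 < C ∧
      ∀ (n d K : ℕ) (u : Fin K → EuclideanSpace ℝ (Fin d)) (c : Fin n → Fin K → ℝ),
        (∀ l, ‖u l‖ ≤ 1) → (∀ i, ∑ l : Fin K, |c i l| * (1 + Real.log (1 + (l : ℝ))) ^ t ≤ 1) →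
        RoundsWithin (fun i => ∑ l, c i l • u l) (C * rate t (min n d)) := by
    intro t ht ht2
    obtain ⟨C, hC, h⟩ := part2 t ht
    refine ⟨C * (3 + 16 * 4 ^ (1 / t)) ^ min t (1 / 4), by positivity, ?_⟩
    intro n d K u c hu hc
    have h1 := h n d (fun i => ∑ l, c i l • u l) (3 + 16 * 4 ^ (1 / t))
      (hull_norm t ht.le u hu c hc) (fun ρ h1 h2 => hull_pack t ht ht2 u hu c hc ρ h1 h2)
    rwa [← mul_assoc] at h1
  by_cases h2 : s < 1 / 2
  · exact key s hs h2
  · push Not at h2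
    obtain ⟨C, hC, h⟩ := key (3 / 8) (by norm_num) (by norm_num)
    refine ⟨C, hC, ?_⟩
    intro n d K u c hu hc
    have h1 := h n d K u c hu (fun i => le_trans (Finset.sum_le_sum fun l _ => by
      apply mul_le_mul_of_nonneg_left _ (abs_nonneg _)
      exact Real.rpow_le_rpow_of_exponent_le (ell_arg l) (by linarith)) (hc i))
    have e1 : rate (3 / 8) (min n d) = 1 := by
      unfold rate
      rw [if_pos (by norm_num)]
    have e2 : rate s (min n d) = 1 := by
      unfold rate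
      rw [if_pos (by linarith)]
    rw [e2]
    rwa [e1] at h1

/-- **An entropy bound for the Komlós problem**: see the header of the file. -/
theorem result :
    (∃ C : ℝ, 0 < C ∧ ∀ (n d : ℕ) (v : Fin n → EuclideanSpace ℝ (Fin d)) (N : ℕ → ℕ) (S : ℝ),
      (∀ i, ‖v i‖ ≤ 1) → (∀ j, PackLE v ((1 / 2) ^ j) (N j)) →
      (∀ J, ∑ j ∈ range J, (1 / 2 : ℝ) ^ j *
        (1 + Real.log (1 + ((min (N j) (min n d) : ℕ) : ℝ))) ^ (1 / 4 : ℝ) ≤ S) →
      RoundsWithin v (C * S)) ∧
    (∀ s : ℝ, 0 < s → ∃ C : ℝ, 0 < C ∧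
      ∀ (n d : ℕ) (v : Fin n → EuclideanSpace ℝ (Fin d)) (A : ℝ), (∀ i, ‖v i‖ ≤ 1) →
        (∀ ρ : ℝ, 0 < ρ → ρ ≤ 1 → ∃ N : ℕ, PackLE v ρ N ∧
          1 + Real.log (1 + (N : ℝ)) ≤ A * ρ ^ (-(1 / s))) →
        RoundsWithin v (C * (A ^ min s (1 / 4) * rate s (min n d)))) ∧
    ∀ s : ℝ, 0 < s → ∃ C : ℝ, 0 < C ∧
      ∀ (n d K : ℕ) (u : Fin K → EuclideanSpace ℝ (Fin d)) (c : Fin n → Fin K → ℝ),
        (∀ l, ‖u l‖ ≤ 1) → (∀ i, ∑ l : Fin K, |c i l| * (1 + Real.log (1 + (l : ℝ))) ^ s ≤ 1) →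
        RoundsWithin (fun i => ∑ l, c i l • u l) (C * rate s (min n d)) :=
  ⟨⟨6 * K0, by norm_num [K0], fun _ _ v N S hv hN hS => main1 v hv N hN S hS⟩, part2, part3⟩

end Pool.Agent.Results.MP_c81d26_co.EntropyIntegral
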