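import Pool.Agent.U531.KL.Lq

set_option autoImplicit false

/-!
# The Komlós problem for infinite families: a bound logarithmic in the masses of the coordinates

A bound for the Komlós problem which depends neither on the number of the vectors nor on the
dimension: finite and infinite families `v_j`, `j ∈ J`, in the unit ball of `ℓ²(I)`, with arbitrary
index sets, are treated alike. If every coordinate is nonzero in at most `D` of the vectors, some
signing has value at most `2 C (1 + log D)`; more generally the number of the nonzero entries of a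
coordinate may be replaced by the sum of the `q`-th powers of the absolute values of its entries,
for any `q < 1`, which may be finite for coordinates with infinitely many nonzero entries.

The finite case with the number of the nonzero entries is `Pool.Agent.N421.KD.cut`.
-/

open Finset

namespace Pool.Agent.Results.MP_c81d26_co.InfiniteFamilies

universe u w

/-- the point `x` is a family of signs which agrees with `x₀` where `x₀` is a sign -/
structure Signing {J : Type u} (x₀ x : J → ℝ) : Prop where
  sign : ∀ j, x j = 1 ∨ x j = -1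
  keep : ∀ j, |x₀ j| = 1 → x j = x₀ j

/-- **Main theorem.** There is an absolute constant `C` such that for all sets `J`, `I`, all vectors
`v j`, `j ∈ J`, in the unit ball of `ℓ²(I)` and every starting point `x₀ ∈ [-1,1]^J`:

(1) for all integers `D ≥ 1` and all `η > 0` there are signs `x` (equal to `x₀` where that is a
sign) such that for every coordinate `k` in which the entries of the `v j` with `|x₀ j| < 1` are
absolutely summable, the sum of the `(x j - x₀ j) * v j k` converges absolutely and is at most
`C (1 + log D) (1 + N / D) + 2 s` in absolute value, where `N` is the number of the `j` with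
`|x₀ j| < 1` and `|v j k| ≥ η`, and `s` the sum of the `|v j k|` over the other `j` with
`|x₀ j| < 1`;

(2) for all real `0 ≤ q < 1` and `D ≥ 1` there are signs `x` (equal to `x₀` where that is a sign)
such that for every coordinate `k` for which the sum `m` of the `|v j k| ^ q` over the `j` with
`|x₀ j| < 1` and `v j k ≠ 0` is finite, the sum of the `(x j - x₀ j) * v j k` converges absolutely
and is at most `C / (1 - q) * (1 + log D) * (1 + m / D)` in absolute value.

In particular (`q = 0`, `x₀ = 0`), if every coordinate is nonzero in at most `D` of the vectors then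
some signing has value at most `2 C (1 + log D)`. -/
theorem result : ∃ C : ℝ, 0 < C ∧
    ∀ (J : Type u) (I : Type w) (v : J → I → ℝ) (x₀ : J → ℝ),
      (∀ j (F : Finset I), ∑ k ∈ F, v j k ^ 2 ≤ 1) → (∀ j, |x₀ j| ≤ 1) →
      (∀ (D : ℕ) (η : ℝ), 1 ≤ D → 0 < η →
        ∃ x : J → ℝ, Signing x₀ x ∧
          ∀ k, Summable (fun j : {j // |x₀ j| < 1} => |v j k|) →
            Summable (fun j => |(x j - x₀ j) * v j k|) ∧
            |∑' j, (x j - x₀ j) * v j k| ≤
              C * (1 + Real.log D) *
                  (1 + ({j | |x₀ j| < 1 ∧ η ≤ |v j k|}.ncard : ℝ) / D) +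
                2 * ∑' j : {j // |x₀ j| < 1 ∧ |v j k| < η}, |v j k|) ∧
      ∀ (q D : ℝ), 0 ≤ q → q < 1 → 1 ≤ D →
        ∃ x : J → ℝ, Signing x₀ x ∧
          ∀ k, Summable (fun j : {j // |x₀ j| < 1 ∧ v j k ≠ 0} => |v j k| ^ q) →
            Summable (fun j => |(x j - x₀ j) * v j k|) ∧
            |∑' j, (x j - x₀ j) * v j k| ≤
              C / (1 - q) * (1 + Real.log D) *
                (1 + (∑' j : {j // |x₀ j| < 1 ∧ v j k ≠ 0}, |v j k| ^ q) / D) := by
  classical
  obtain ⟨C, hC, H⟩ := Pool.Agent.U531.KL.inf_cut.{u, w}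
  refine ⟨2 * C + 2, by positivity, ?_⟩
  intro J I v x₀ hv hx₀
  refine ⟨?_, ?_⟩
  · intro D η hD hη
    obtain ⟨x, x1, x2, x3⟩ := H D η hD hη J I v x₀ hv hx₀
    refine ⟨x, ⟨x1, x2⟩, fun k hk => ?_⟩
    have hk' := Pool.Agent.U531.KL.summable_al_iff.2 hk
    obtain ⟨h1, h2⟩ := x3 k hk'
    refine ⟨h1, h2.trans ?_⟩
    rw [Pool.Agent.U531.KL.tsum_big hη hk', Pool.Agent.U531.KL.tsum_small]
    have hD1 : (1 : ℝ) ≤ D := by exact_mod_cast hD
    have hlD : 0 ≤ Real.log (D : ℝ) := Real.log_nonneg hD1
    have : C ≤ 2 * C + 2 := by linarith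
    gcongr
  · intro q D hq hq1 hD
    have hD0 : 0 < D := by linarith
    have hr : 0 < 1 - q := by linarith
    have hκr : 1 / (1 - q) * (1 - q) = 1 := by field_simp
    have hη0 : 0 < D ^ (-(1 / (1 - q))) := Real.rpow_pos_of_pos hD0 _
    have hη1 : (D ^ (-(1 / (1 - q)))) ^ (1 - q) = D⁻¹ := by
      rw [← Real.rpow_mul hD0.le, neg_mul, hκr, Real.rpow_neg_one]
    have hηq : ((D ^ (-(1 / (1 - q)))) ^ q)⁻¹ = D ^ (1 / (1 - q) * q) := by
      rw [← Real.rpow_mul hD0.le, neg_mul, Real.rpow_neg hD0.le, inv_inv]
    have hE1 : 1 ≤ ⌈D ^ (1 / (1 - q))⌉₊ := by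
      rw [Nat.one_le_ceil_iff]
      exact Real.rpow_pos_of_pos hD0 _
    obtain ⟨x, x1, x2, x3⟩ := H ⌈D ^ (1 / (1 - q))⌉₊ (D ^ (-(1 / (1 - q)))) hE1 hη0 J I v x₀
      hv hx₀
    refine ⟨x, ⟨x1, x2⟩, fun k hk => ?_⟩
    have hms := Pool.Agent.U531.KL.summable_ms_iff.2 hk
    have hk' : Summable (Pool.Agent.U531.KL.al v x₀ k) :=
      Summable.of_nonneg_of_le (fun j => Pool.Agent.U531.KL.al_nonneg _ _ _ _)
        (fun j => Pool.Agent.U531.KL.al_le_ms hq1 (fun j => by
          have h := hv j {k}
          rw [sum_singleton] at h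
          exact (sq_le_one_iff_abs_le_one _).1 h) j) hms
    obtain ⟨h1, h2⟩ := x3 k hk'
    refine ⟨h1, h2.trans ?_⟩
    rw [← Pool.Agent.U531.KL.tsum_ms]
    refine Pool.Agent.U531.KL.num hC hq1 hq hD rfl
      (tsum_nonneg fun j => Pool.Agent.U531.KL.ms_nonneg _ _) ?_ ?_
    · rw [← hηq, ← tsum_mul_left]
      refine Summable.tsum_le_tsum (fun j => Pool.Agent.U531.KL.big_le_ms hη0 hq j) ?_
        (hms.mul_left _)
      exact Summable.of_nonneg_of_le (fun j => Pool.Agent.U531.KL.big_nonneg _ _ _)
        (fun j => Pool.Agent.U531.KL.big_le_ms hη0 hq j) (hms.mul_left _)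
    · rw [← hη1, ← tsum_mul_left]
      refine Summable.tsum_le_tsum (fun j => Pool.Agent.U531.KL.small_le_ms hη0 hq1 j) ?_
        (hms.mul_left _)
      exact Summable.of_nonneg_of_le (fun j => Pool.Agent.U531.KL.small_nonneg _ _ _)
        (fun j => Pool.Agent.U531.KL.small_le_ms hη0 hq1 j) (hms.mul_left _)

end Pool.Agent.Results.MP_c81d26_co.InfiniteFamilies
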