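import Mathlib
import Pool.Agent.U939.KL.LpMain

/-!
# The Komlós problem for vectors in the unit ball of `ℓ_p`, `1 ≤ p ≤ 2`

Let `1 ≤ p ≤ 2`, `v_1, …, v_n ∈ ℝ^d` with `∑ i, |v_j i| ^ p ≤ 1` (so these vectors are in the
Euclidean unit ball), `0 < δ_i ≤ 1` with `|v_j i| ≤ δ_i` for all `j`, and `x⁰ ∈ [-1,1]^n`. Let
`bound p δ X = min (X ^ ((1 - 1/p)/2)) (δ ^ (1 - p/2) + δ √X (1 + log (1/δ)) ^ (3/2))`.
With an absolute constant `C` (independent of `p`):

(1) there are signs `x_j` such that, for all coordinates `i` at once, the `i`-th coordinate of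
`∑ j, (x_j - x⁰_j) v_j` is at most `C bound p δ_i (1 + log (1 + min d n))`. In particular all
coordinates are at most `C (1 + log (1 + min d n)) ^ ((1 - 1/p)/2)`: this interpolates between the
theorem of Beck-Fiala and Bárány-Grinberg (`p = 1`) and that of Bansal-Jiang (`p = 2`).

(2) Random form, independent of the dimension: for every `X ≥ 1` there is a probability
distribution on signings such that every coordinate is at most `q C bound p δ_i X` with probability
at least `1 - exp (- q X)`, for all integers `q ≥ 1`, and surely at most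
`C bound p δ_i X (2 + log (min d n) / X)`.

Proof: the potential function method of the library (`H167KL`, `N243`), rebuilt (`U939/KL`) with
potentials, cut-offs and levels depending on the row, with energies `|v_j i| ^ p` instead of
squares, and with a deterministic bound for the part of a coordinate formed by its entries above
`X ^ (-1/(2p))`, which is kept balanced as long as its alive energy exceeds `10`.
-/

set_option autoImplicit false

namespace Pool.Agent.Results.MP_c81d26_co.LpBalls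

open Finset Real

/-- The bound for a coordinate with entries at most `δ`. -/
noncomputable def bound (p δ X : ℝ) : ℝ :=
  min (X ^ ((1 - 1 / p) / 2))
    (δ ^ (1 - p / 2) + δ * Real.sqrt X * (1 + Real.log (1 / δ)) ^ (3 / 2 : ℝ))

/-- The `i`-th coordinate of `∑ j, (x j - x₀ j) v_j`, in absolute value. -/
def coord {d n : ℕ} (v : Fin n → Fin d → ℝ) (x₀ x : Fin n → ℝ) (i : Fin d) : ℝ :=
  |∑ j, (x j - x₀ j) * v j i|

/-- `v_1, …, v_n` are in the unit ball of `ℓ_p`, and their `i`-th coordinates are at most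
`δ i ∈ (0, 1]` in absolute value. -/
def InBall {d n : ℕ} (p : ℝ) (v : Fin n → Fin d → ℝ) (δ : Fin d → ℝ) : Prop :=
  (∀ j, ∑ i, |v j i| ^ p ≤ 1) ∧ (∀ i, 0 < δ i ∧ δ i ≤ 1) ∧ ∀ j i, |v j i| ≤ δ i

theorem result : ∃ C : ℝ, 0 < C ∧
    (∀ p : ℝ, 1 ≤ p → p ≤ 2 → ∀ (d n : ℕ) (v : Fin n → Fin d → ℝ) (δ : Fin d → ℝ),
      InBall p v δ → ∀ x₀ : Fin n → ℝ, (∀ j, |x₀ j| ≤ 1) →
        ∃ x : Fin n → ℝ, (∀ j, x j = 1 ∨ x j = -1) ∧
          ∀ i, coord v x₀ x i ≤ C * bound p (δ i) (1 + Real.log (1 + (min d n : ℕ)))) ∧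
    (∀ p : ℝ, 1 ≤ p → p ≤ 2 → ∀ (d n : ℕ) (v : Fin n → Fin d → ℝ) (δ : Fin d → ℝ),
      InBall p v δ → ∀ x₀ : Fin n → ℝ, (∀ j, |x₀ j| ≤ 1) → ∀ X : ℝ, 1 ≤ X →
        ∃ (K : ℕ) (w : Fin K → ℝ) (x : Fin K → Fin n → ℝ),
          (∀ k, 0 ≤ w k) ∧ ∑ k, w k = 1 ∧ (∀ k j, x k j = 1 ∨ x k j = -1) ∧
          (∀ (i : Fin d) (q : ℕ), 1 ≤ q →
            ∑ k, (if q * (C * bound p (δ i) X) < coord v x₀ (x k) i then w k else 0) ≤
              Real.exp (-(q * X))) ∧
          ∀ k i, coord v x₀ (x k) i ≤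
            C * bound p (δ i) X * (2 + Real.log (min d n : ℕ) / X)) := by
  have hb : ∀ {p δ X : ℝ}, 1 ≤ X → 0 < δ → δ ≤ 1 → 0 ≤ bound p δ X :=
    fun hX h0 h1 => Pool.Agent.U939.KL.lpb_nonneg hX h0 h1
  refine ⟨10000000, by norm_num, ?_, ?_⟩
  · intro p hp1 hp2 d n v δ ⟨hv, hδ, hvδ⟩ x₀ hx₀
    set X : ℝ := 1 + Real.log (1 + (min d n : ℕ)) with hXdef
    have hN : (0 : ℝ) ≤ ((min d n : ℕ) : ℝ) := Nat.cast_nonneg _
    have hX : 1 ≤ X := by
      have := Real.log_nonneg (by linarith : (1 : ℝ) ≤ 1 + ((min d n : ℕ) : ℝ))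
      linarith
    obtain ⟨K, w, x, h1, h2, h3, -, h5⟩ := Pool.Agent.U939.KL.lp_random p hp1 hp2 v hv δ
      (fun i => (hδ i).1) (fun i => (hδ i).2) hvδ x₀ hx₀ X hX
    have hK : 0 < K := by
      rcases Nat.eq_zero_or_pos K with h0 | h0
      · subst h0
        simp at h2
      · exact h0
    refine ⟨x ⟨0, hK⟩, h3 _, fun i => ?_⟩
    have h6 := h5 ⟨0, hK⟩ i
    have h7 : 0 ≤ Pool.Agent.U939.KL.lpb p (δ i) X :=
      Pool.Agent.U939.KL.lpb_nonneg hX (hδ i).1 (hδ i).2
    have h8 : Real.log ((min d n : ℕ) : ℝ) / X ≤ 1 := by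
      rw [div_le_one (by linarith)]
      rcases Nat.eq_zero_or_pos (min d n) with h0 | h0
      · rw [h0, Nat.cast_zero, Real.log_zero]; linarith
      · have h9 : (0 : ℝ) < ((min d n : ℕ) : ℝ) := by exact_mod_cast h0
        have := Real.log_le_log h9 (by linarith : ((min d n : ℕ) : ℝ) ≤ 1 + ((min d n : ℕ) : ℝ))
        linarith
    show Pool.Agent.U939.KL.coord v x₀ (x ⟨0, hK⟩) i ≤
      10000000 * Pool.Agent.U939.KL.lpb p (δ i) X
    refine h6.trans ?_
    nlinarith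
  · intro p hp1 hp2 d n v δ ⟨hv, hδ, hvδ⟩ x₀ hx₀ X hX
    obtain ⟨K, w, x, h1, h2, h3, h4, h5⟩ := Pool.Agent.U939.KL.lp_random p hp1 hp2 v hv δ
      (fun i => (hδ i).1) (fun i => (hδ i).2) hvδ x₀ hx₀ X hX
    refine ⟨K, w, x, h1, h2, h3, fun i q hq => ?_, fun k i => ?_⟩
    · refine le_trans (Finset.sum_le_sum fun k _ => ?_) (h4 i q hq)
      have h7 : 0 ≤ Pool.Agent.U939.KL.lpb p (δ i) X :=
        Pool.Agent.U939.KL.lpb_nonneg hX (hδ i).1 (hδ i).2
      have h8 : (q : ℝ) * (3000040 * Pool.Agent.U939.KL.lpb p (δ i) X) ≤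
          q * (10000000 * bound p (δ i) X) := by
        apply mul_le_mul_of_nonneg_left _ (Nat.cast_nonneg q)
        show 3000040 * Pool.Agent.U939.KL.lpb p (δ i) X ≤
          10000000 * Pool.Agent.U939.KL.lpb p (δ i) X
        linarith
      have h9 : coord v x₀ (x k) i = Pool.Agent.U939.KL.coord v x₀ (x k) i := rfl
      rw [h9]
      by_cases h10 : (q : ℝ) * (10000000 * bound p (δ i) X) <
          Pool.Agent.U939.KL.coord v x₀ (x k) i
      · rw [if_pos h10, if_pos (h8.trans_lt h10)]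
      · rw [if_neg h10]
        split_ifs
        · exact h1 k
        · exact le_rfl
    · have h7 : 0 ≤ Pool.Agent.U939.KL.lpb p (δ i) X :=
        Pool.Agent.U939.KL.lpb_nonneg hX (hδ i).1 (hδ i).2
      have h8 : 0 ≤ 2 + Real.log ((min d n : ℕ) : ℝ) / X := by
        have : 0 ≤ Real.log ((min d n : ℕ) : ℝ) / X :=
          div_nonneg (Real.log_natCast_nonneg _) (by linarith)
        linarith
      show Pool.Agent.U939.KL.coord v x₀ (x k) i ≤
        10000000 * Pool.Agent.U939.KL.lpb p (δ i) X * (2 + Real.log (min d n : ℕ) / X)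
      refine (h5 k i).trans ?_
      nlinarith [mul_nonneg h7 h8]

end Pool.Agent.Results.MP_c81d26_co.LpBalls
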