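import Pool.Agent.Results.MP_c81d26_co.SigningsCount
import Pool.Agent.U515.KX.Mat

/-!
# Komlós with matroid constraints: strongly base orderable matroids and exchangeable families

A family `𝔉` of subsets of `[n]` is `s`-exchangeable if for all `A, B ∈ 𝔉` the set `A △ B` can be
partitioned into blocks of at most `s` elements such that switching any set of blocks leads from
`A` to a member of `𝔉`. Examples: the bases of a strongly base orderable matroid (`s = 2`),
direct products, and so on. Let `v_1, …, v_n` be vectors of the Euclidean unit ball of `ℝ^d` and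
let `K` be such that all finite families in the unit ball of `ℝ^d` have signings of value at most
`K`.

(1) Every point `x₀` of the convex hull of the indicators of the members of an `s`-exchangeable
family `𝔉` can be rounded to some `A ∈ 𝔉` such that all coordinates of `∑_{j ∈ A} v_j - ∑ x₀_j v_j`
are at most `s K`.

(2) Any `2^m` members `A_i` of `𝔉` can be replaced by `2^m` members `C_i` which cover every element
of `[n]` as often as before (so if the `A_i` partition `[n]`, then the `C_i` partition `[n]`) and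
have nearly equal sums: each `∑_{j ∈ C_i} v_j` differs from the mean by at most `s K` in every
coordinate.

(3) Unconditionally (1) and (2) hold with `C s (1 + log (1 + min n d))^{1/4}` instead of `s K`.

(4) The bases of a strongly base orderable matroid are a `2`-exchangeable family.

(5) Komlós's conjecture is equivalent to its matroid version: there is an absolute constant `c` such
that every point of the base polytope of every strongly base orderable matroid can be rounded to a
base with all coordinates of the error at most `c`.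
-/

set_option autoImplicit false

namespace Pool.Agent.Results.MP_c81d26_co.StronglyOrderableBases

open Pool.Agent.U515.KX

/-- `x₀` can be rounded to a member of `F` with error at most `R` in every coordinate. -/
def HasRounding {n d : ℕ} (v : Fin n → Fin d → ℝ) (F : Set (Finset (Fin n))) (x₀ : Fin n → ℝ)
    (R : ℝ) : Prop :=
  ∃ A ∈ F, ∀ k, |∑ j ∈ A, v j k - ∑ j, x₀ j * v j k| ≤ R

/-- Any `2^m` members of `F` can be replaced by `2^m` members which cover every element as often
as before and whose sums differ from the mean by at most `R` in every coordinate. -/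
def HasBalancing {n d : ℕ} (v : Fin n → Fin d → ℝ) (F : Set (Finset (Fin n))) (R : ℝ) : Prop :=
  ∀ (m : ℕ) (A : Fin (2 ^ m) → Finset (Fin n)), (∀ i, A i ∈ F) →
    ∃ C : Fin (2 ^ m) → Finset (Fin n), (∀ i, C i ∈ F) ∧
      (∀ x, (Finset.univ.filter fun i => x ∈ C i).card =
        (Finset.univ.filter fun i => x ∈ A i).card) ∧
      ∀ i k, |∑ j ∈ C i, v j k - (∑ i, ∑ j ∈ A i, v j k) / 2 ^ m| ≤ R

theorem general {n d s : ℕ} {F : Set (Finset (Fin n))} (hF : Exchangeable s F)
    (v : Fin n → Fin d → ℝ) (hv : InBall v) (b : ℕ → ℝ)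
    (hb : ∀ k, ∀ w : Fin (2 ^ k * n) → Fin d → ℝ, InBall w → HasSigning w (b k)) (R : ℝ)
    (hR : 0 < d → ∀ m, s * ∑ l ∈ Finset.range m, b l / 2 ^ (l + 1) ≤ R) :
    (∀ x₀ ∈ convexHull ℝ (ind '' F), HasRounding v F x₀ R) ∧ HasBalancing v F R := by
  refine ⟨fun x₀ hx => round_hull hF v hv b hb R hR x₀ hx, fun m A hA => ?_⟩
  have hpos : 0 < 2 ^ m := by positivity
  obtain ⟨C, hC, hC1, hC2⟩ := balance hF v hv b hb m
    (fun i => if h : i < 2 ^ m then A ⟨i, h⟩ else A ⟨0, hpos⟩) (fun i => by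
      show (if h : i < 2 ^ m then A ⟨i, h⟩ else A ⟨0, hpos⟩) ∈ F
      split_ifs
      · exact hA _
      · exact hA _)
  refine ⟨fun i => C i, fun i => hC _, fun x => ?_, fun i k => ?_⟩
  · have h := hC1 x
    rw [Finset.sum_range, Finset.sum_range] at h
    simp only [ind, Fin.is_lt, dif_pos, Fin.eta] at h
    rw [Finset.sum_boole, Finset.sum_boole] at h
    exact_mod_cast h
  · have h := (hC2 i i.isLt k).trans (hR (Fin.pos k) m)
    have e1 : ∀ B : Finset (Fin n), ∑ j, ind B j * v j k = ∑ j ∈ B, v j k := by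
      intro B
      simp [ind, Finset.sum_ite_mem]
    rw [Finset.sum_range] at h
    simp only [e1, Fin.is_lt, dif_pos, Fin.eta] at h
    exact h

theorem geom (K : ℝ) (m : ℕ) :
    ∑ l ∈ Finset.range m, K / 2 ^ (l + 1) = K * (1 - 1 / 2 ^ m) := by
  induction m with
  | zero => simp
  | succ m ih =>
    rw [Finset.sum_range_succ, ih, pow_succ]
    field_simp
    ring

theorem geom2 (m : ℕ) :
    ∑ l ∈ Finset.range m, ((l:ℝ) + 1) / 2 ^ (l + 1) = 2 - ((m:ℝ) + 2) / 2 ^ m := by
  induction m with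
  | zero => simp
  | succ m ih =>
    rw [Finset.sum_range_succ, ih, pow_succ]
    push_cast
    field_simp
    ring

theorem conditional {n d s : ℕ} {F : Set (Finset (Fin n))} (hF : Exchangeable s F)
    (v : Fin n → Fin d → ℝ) (hv : InBall v) (K : ℝ)
    (hK : ∀ (N : ℕ) (w : Fin N → Fin d → ℝ), InBall w → HasSigning w K) :
    (∀ x₀ ∈ convexHull ℝ (ind '' F), HasRounding v F x₀ (s * K)) ∧ HasBalancing v F (s * K) := by
  refine general hF v hv (fun _ => K) (fun k w hw => hK _ w hw) (s * K) (fun hd m => ?_)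
  have h0 : 0 ≤ K := by
    obtain ⟨ε, _, h⟩ := hK 0 (fun _ _ => 0) (fun i => i.elim0)
    have := h ⟨0, hd⟩
    simpa using this
  rw [geom]
  have h1 : K * (1 - 1 / 2 ^ m) ≤ K := by
    have : (0:ℝ) ≤ 1 / 2 ^ m := by positivity
    nlinarith
  exact mul_le_mul_of_nonneg_left h1 (by positivity)

theorem uncond : ∃ C : ℝ, ∀ (n d : ℕ) (v : Fin n → Fin d → ℝ), InBall v →
    HasSigning v (C * (1 + Real.log (1 + (min n d : ℕ))) ^ (1 / 4 : ℝ)) := by
  obtain ⟨C, hC⟩ := Pool.Agent.Results.MP_c81d26_co.SigningsCount.part2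
  refine ⟨C + 1, fun n d v hv => ?_⟩
  have h1 := hC n d v 1 hv one_pos
  have h2 : (0:ℝ) < (Pool.Agent.Results.MP_c81d26_co.SigningsCount.count v
      (C * (1 + Real.log (1 + (min n d : ℕ))) ^ (1 / 4 : ℝ) + 1) : ℝ) :=
    lt_of_lt_of_le (by positivity) h1
  have h3 : 0 < Pool.Agent.Results.MP_c81d26_co.SigningsCount.count v
      (C * (1 + Real.log (1 + (min n d : ℕ))) ^ (1 / 4 : ℝ) + 1) := by exact_mod_cast h2
  unfold Pool.Agent.Results.MP_c81d26_co.SigningsCount.count at h3
  obtain ⟨⟨ε, hε⟩⟩ := (Nat.card_pos_iff.1 h3).1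
  refine ⟨fun i => ((ε i : ℤ) : ℝ),
    fun i => Pool.Agent.Results.MP_c81d26_co.SigningsCount.units_real _, fun k => ?_⟩
  refine (hε k).trans ?_
  have h4 : (1:ℝ) ≤ (1 + Real.log (1 + (min n d : ℕ))) ^ (1 / 4 : ℝ) := by
    apply Real.one_le_rpow _ (by norm_num)
    have : 0 ≤ Real.log (1 + ((min n d : ℕ) : ℝ)) := Real.log_nonneg (by
      have : (0:ℝ) ≤ ((min n d : ℕ) : ℝ) := by positivity
      linarith)
    linarith
  linarith

/-- the bound for `2^k n` vectors -/
theorem growth (n d k : ℕ) :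
    (1 + Real.log (1 + (min (2 ^ k * n) d : ℕ))) ^ (1 / 4 : ℝ) ≤
      ((k:ℝ) + 1) * (1 + Real.log (1 + (min n d : ℕ))) ^ (1 / 4 : ℝ) := by
  have hM : (0:ℝ) ≤ ((min n d : ℕ) : ℝ) := by positivity
  have hL : 0 ≤ Real.log (1 + ((min n d : ℕ) : ℝ)) := Real.log_nonneg (by linarith)
  have h1 : ((min (2 ^ k * n) d : ℕ) : ℝ) ≤ 2 ^ k * ((min n d : ℕ) : ℝ) := by
    have h2 : min (2 ^ k * n) d ≤ 2 ^ k * min n d := by
      rcases le_total n d with h | h
      · rw [min_eq_left h]
        exact min_le_left _ _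
      · rw [min_eq_right h]
        refine (min_le_right _ _).trans ?_
        exact Nat.le_mul_of_pos_left d (by positivity)
    exact_mod_cast h2
  have h3 : (1:ℝ) ≤ 2 ^ k := one_le_pow₀ (by norm_num)
  have h4 : Real.log (1 + ((min (2 ^ k * n) d : ℕ) : ℝ)) ≤
      k + Real.log (1 + ((min n d : ℕ) : ℝ)) := by
    have h5 : Real.log (1 + ((min (2 ^ k * n) d : ℕ) : ℝ)) ≤
        Real.log (2 ^ k * (1 + ((min n d : ℕ) : ℝ))) := by
      apply Real.log_le_log (by positivity)
      nlinarith
    rw [Real.log_mul (by positivity) (by positivity), Real.log_pow] at h5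
    have h6 : Real.log 2 ≤ 1 := by
      have := Real.log_le_sub_one_of_pos (show (0:ℝ) < 2 by norm_num)
      linarith
    have h7 : (k:ℝ) * Real.log 2 ≤ k := by
      have : (0:ℝ) ≤ k := by positivity
      nlinarith
    linarith
  have h8 : 1 + Real.log (1 + ((min (2 ^ k * n) d : ℕ) : ℝ)) ≤
      ((k:ℝ) + 1) * (1 + Real.log (1 + ((min n d : ℕ) : ℝ))) := by
    have : (0:ℝ) ≤ k := by positivity
    nlinarith
  have h9 : 0 ≤ Real.log (1 + ((min (2 ^ k * n) d : ℕ) : ℝ)) := Real.log_nonneg (by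
    have : (0:ℝ) ≤ ((min (2 ^ k * n) d : ℕ) : ℝ) := by positivity
    linarith)
  calc (1 + Real.log (1 + (min (2 ^ k * n) d : ℕ))) ^ (1 / 4 : ℝ) ≤
        (((k:ℝ) + 1) * (1 + Real.log (1 + ((min n d : ℕ) : ℝ)))) ^ (1 / 4 : ℝ) :=
        Real.rpow_le_rpow (by linarith) h8 (by norm_num)
    _ = ((k:ℝ) + 1) ^ (1 / 4 : ℝ) * (1 + Real.log (1 + ((min n d : ℕ) : ℝ))) ^ (1 / 4 : ℝ) := by
        rw [Real.mul_rpow (by positivity) (by linarith)]
    _ ≤ ((k:ℝ) + 1) * (1 + Real.log (1 + (min n d : ℕ))) ^ (1 / 4 : ℝ) := by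
        apply mul_le_mul_of_nonneg_right _ (by positivity)
        have h10 : (1:ℝ) ≤ (k:ℝ) + 1 := by
          have : (0:ℝ) ≤ k := by positivity
          linarith
        calc ((k:ℝ) + 1) ^ (1 / 4 : ℝ) ≤ ((k:ℝ) + 1) ^ (1 : ℝ) :=
              Real.rpow_le_rpow_of_exponent_le h10 (by norm_num)
          _ = (k:ℝ) + 1 := Real.rpow_one _

theorem unconditional : ∃ C : ℝ, ∀ (n d s : ℕ) (F : Set (Finset (Fin n)))
    (v : Fin n → Fin d → ℝ), Exchangeable s F → InBall v →
    (∀ x₀ ∈ convexHull ℝ (ind '' F),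
      HasRounding v F x₀ (C * s * (1 + Real.log (1 + (min n d : ℕ))) ^ (1 / 4 : ℝ))) ∧
    HasBalancing v F (C * s * (1 + Real.log (1 + (min n d : ℕ))) ^ (1 / 4 : ℝ)) := by
  obtain ⟨C, hC⟩ := uncond
  refine ⟨2 * |C|, fun n d s F v hF hv => ?_⟩
  set L : ℝ := (1 + Real.log (1 + (min n d : ℕ))) ^ (1 / 4 : ℝ) with hL
  have hL0 : 0 ≤ L := by
    rw [hL]
    apply Real.rpow_nonneg
    have : 0 ≤ Real.log (1 + ((min n d : ℕ) : ℝ)) := Real.log_nonneg (by
      have : (0:ℝ) ≤ ((min n d : ℕ) : ℝ) := by positivity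
      linarith)
    linarith
  refine general hF v hv (fun k => |C| * (((k:ℝ) + 1) * L)) (fun k w hw => ?_) _ (fun _ m => ?_)
  · obtain ⟨ε, hε, h⟩ := hC _ d w hw
    refine ⟨ε, hε, fun c => (h c).trans ?_⟩
    have h1 := growth n d k
    have h2 : (0:ℝ) ≤ (1 + Real.log (1 + (min (2 ^ k * n) d : ℕ))) ^ (1 / 4 : ℝ) := by
      apply Real.rpow_nonneg
      have : 0 ≤ Real.log (1 + ((min (2 ^ k * n) d : ℕ) : ℝ)) := Real.log_nonneg (by
        have : (0:ℝ) ≤ ((min (2 ^ k * n) d : ℕ) : ℝ) := by positivity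
        linarith)
      linarith
    exact (mul_le_mul_of_nonneg_right (le_abs_self C) h2).trans
      (mul_le_mul_of_nonneg_left h1 (abs_nonneg C))
  · have h1 : ∑ l ∈ Finset.range m, |C| * (((l:ℝ) + 1) * L) / 2 ^ (l + 1) =
        |C| * L * ∑ l ∈ Finset.range m, ((l:ℝ) + 1) / 2 ^ (l + 1) := by
      rw [Finset.mul_sum]
      refine Finset.sum_congr rfl fun l _ => ?_
      ring
    rw [h1, geom2]
    have h2 : (2:ℝ) - ((m:ℝ) + 2) / 2 ^ m ≤ 2 := by
      have : (0:ℝ) ≤ ((m:ℝ) + 2) / 2 ^ m := by positivity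
      linarith
    have h3 : 0 ≤ |C| * L := by positivity
    have hs : (0:ℝ) ≤ s := by positivity
    calc (s:ℝ) * (|C| * L * (2 - ((m:ℝ) + 2) / 2 ^ m)) ≤ s * (|C| * L * 2) :=
          mul_le_mul_of_nonneg_left (mul_le_mul_of_nonneg_left h2 h3) hs
      _ = 2 * |C| * s * L := by ring

theorem matroid_version :
    (∃ c : ℝ, 0 < c ∧ ∀ (n d : ℕ) (v : Fin n → Fin d → ℝ), InBall v → HasSigning v c) ↔
    ∃ c : ℝ, 0 < c ∧ ∀ (n d : ℕ) (v : Fin n → Fin d → ℝ) (M : Matroid (Fin n)), InBall v →
      StronglyBaseOrderable M → ∀ x₀ ∈ convexHull ℝ (ind '' bases M),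
        HasRounding v (bases M) x₀ c := by
  constructor
  · rintro ⟨c, hc, h⟩
    refine ⟨2 * c, by positivity, fun n d v M hv hM x₀ hx => ?_⟩
    have h1 := (conditional (sbo_exchangeable M hM) v hv c (fun N w hw => h N d w hw)).1 x₀ hx
    exact_mod_cast h1
  · rintro ⟨c, hc, h⟩
    refine ⟨2 * c, by positivity, fun n d v hv => ?_⟩
    classical
    have hv2 : InBall (Fin.append v (fun (_ : Fin n) (_ : Fin d) => (0:ℝ))) := by
      intro i
      refine Fin.addCases (fun i => ?_) (fun i => ?_) i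
      · rw [Fin.append_left]
        exact hv i
      · rw [Fin.append_right]
        simp
    have hA1 : (Finset.univ.map (Fin.castAddEmb n) : Finset (Fin (n + n))) ∈ bases (unif n) := by
      show (unif n).IsBase _
      rw [unif_isBase, Set.ncard_coe_finset, Finset.card_map, Finset.card_univ, Fintype.card_fin]
    have hA2 : (Finset.univ.map (Fin.natAddEmb n) : Finset (Fin (n + n))) ∈ bases (unif n) := by
      show (unif n).IsBase _
      rw [unif_isBase, Set.ncard_coe_finset, Finset.card_map, Finset.card_univ, Fintype.card_fin]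
    have hx : (fun _ : Fin (n + n) => (1 / 2 : ℝ)) ∈ convexHull ℝ (ind '' bases (unif n)) := by
      have h1 := convex_convexHull ℝ (ind '' bases (unif n))
        (subset_convexHull ℝ _ ⟨_, hA1, rfl⟩) (subset_convexHull ℝ _ ⟨_, hA2, rfl⟩)
        (show (0:ℝ) ≤ 1 / 2 by norm_num) (show (0:ℝ) ≤ 1 / 2 by norm_num) (by norm_num)
      convert h1 using 1
      ext i
      refine Fin.addCases (fun i => ?_) (fun i => ?_) i
      · simp [ind]
        intro a h
        have := congrArg Fin.val h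
        simp at this
        omega
      · simp [ind]
        intro a h
        have := congrArg Fin.val h
        simp at this
        omega
    obtain ⟨A, hA, hAk⟩ := h (n + n) d _ (unif n) hv2 (unif_sbo n) _ hx
    refine ⟨fun i => if Fin.castAdd n i ∈ A then 1 else -1, fun i => ?_, fun k => ?_⟩
    · show (if Fin.castAdd n i ∈ A then (1:ℝ) else -1) = 1 ∨
        (if Fin.castAdd n i ∈ A then (1:ℝ) else -1) = -1
      split_ifs
      · exact Or.inl rfl
      · exact Or.inr rfl
    · have h1 := hAk k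
      have h2 : ∑ j ∈ A, Fin.append v (fun (_ : Fin n) (_ : Fin d) => (0:ℝ)) j k =
          ∑ i : Fin n, if Fin.castAdd n i ∈ A then v i k else 0 := by
        rw [← Finset.sum_ite_mem_eq, Fin.sum_univ_add]
        simp only [Fin.append_left, Fin.append_right, ite_self, Finset.sum_const_zero, add_zero]
      have h3 : ∑ j, (1 / 2 : ℝ) * Fin.append v (fun (_ : Fin n) (_ : Fin d) => (0:ℝ)) j k =
          ∑ i : Fin n, (1 / 2 : ℝ) * v i k := by
        rw [Fin.sum_univ_add]
        simp only [Fin.append_left, Fin.append_right, mul_zero, Finset.sum_const_zero, add_zero]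
      have h4 : ∑ i : Fin n, (if Fin.castAdd n i ∈ A then (1:ℝ) else -1) * v i k =
          2 * (∑ j ∈ A, Fin.append v (fun (_ : Fin n) (_ : Fin d) => (0:ℝ)) j k -
            ∑ j, (1 / 2 : ℝ) * Fin.append v (fun (_ : Fin n) (_ : Fin d) => (0:ℝ)) j k) := by
        rw [h2, h3, ← Finset.sum_sub_distrib, Finset.mul_sum]
        refine Finset.sum_congr rfl fun i _ => ?_
        split_ifs <;> ring
      show |∑ i : Fin n, (if Fin.castAdd n i ∈ A then (1:ℝ) else -1) * v i k| ≤ 2 * c
      rw [h4, abs_mul, abs_two]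
      linarith

/-- **Komlós with matroid constraints**: see the header of the file. -/
theorem result :
    (∀ (n d s : ℕ) (K : ℝ), (∀ (N : ℕ) (w : Fin N → Fin d → ℝ), InBall w → HasSigning w K) →
      ∀ (F : Set (Finset (Fin n))) (v : Fin n → Fin d → ℝ), Exchangeable s F → InBall v →
        (∀ x₀ ∈ convexHull ℝ (ind '' F), HasRounding v F x₀ (s * K)) ∧
        HasBalancing v F (s * K)) ∧
    (∃ C : ℝ, ∀ (n d s : ℕ) (F : Set (Finset (Fin n))) (v : Fin n → Fin d → ℝ),
      Exchangeable s F → InBall v →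
        (∀ x₀ ∈ convexHull ℝ (ind '' F),
          HasRounding v F x₀ (C * s * (1 + Real.log (1 + (min n d : ℕ))) ^ (1 / 4 : ℝ))) ∧
        HasBalancing v F (C * s * (1 + Real.log (1 + (min n d : ℕ))) ^ (1 / 4 : ℝ))) ∧
    (∀ (n : ℕ) (M : Matroid (Fin n)), StronglyBaseOrderable M → Exchangeable 2 (bases M)) ∧
    ((∃ c : ℝ, 0 < c ∧ ∀ (n d : ℕ) (v : Fin n → Fin d → ℝ), InBall v → HasSigning v c) ↔
      ∃ c : ℝ, 0 < c ∧ ∀ (n d : ℕ) (v : Fin n → Fin d → ℝ) (M : Matroid (Fin n)), InBall v →
        StronglyBaseOrderable M → ∀ x₀ ∈ convexHull ℝ (ind '' bases M),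
          HasRounding v (bases M) x₀ c) :=
  ⟨fun _ _ _ K hK _ v hF hv => conditional hF v hv K hK, unconditional,
    fun _ M hM => sbo_exchangeable M hM, matroid_version⟩

end Pool.Agent.Results.MP_c81d26_co.StronglyOrderableBases
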